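import Mathlib

/-!
# Bidemocratic bases of `ℓ₂` without Lorentz squeezing

Let `B_j`, `j ≥ 0`, be consecutive blocks of `2 ^ j` natural numbers, `v n = 1 / √p` for the `p`-th
element `n` of a block, and `w_j` the unit vector proportional to `∑_{n ∈ B_j} v n e_n`. The operator
`T_j = 1 + s_j w_j ⊗ w_j`, `s_j ^ 2 = ∑_{p ≤ 2 ^ j} 1 / p`, maps `e_n` to `e_n + v n w_j` for
`n ∈ B_j`. The basis consists of the vectors `T_j e_n` (even `j`) and `T_j⁻¹ e_n` (odd `j`).
It is bidemocratic, as `∑_{n ∈ A} v n ≤ 3 √|A|` for `A ⊆ B_j`; but `∑_{n ∈ B_j} v n x_n` has norm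
at least `s_j ^ 2` for even `j`, while its coefficients have the norm `s_j ^ (2 / q)` in `ℓ_{2,q}`.
-/

set_option autoImplicit false

open Filter Topology Finset
open scoped ENNReal InnerProductSpace

namespace Pool.Agent.Results.MP_c77635_an.NoLorentzSqueezing

/-! ### Definitions -/

/-- The non-increasing rearrangement of the sequence `|a|`; its terms are numbered from `0` on. -/
noncomputable def rearr {𝕜 : Type} [RCLike 𝕜] (a : ℕ → 𝕜) (n : ℕ) : ℝ :=
  sInf {t : ℝ | 0 ≤ t ∧ {k : ℕ | t < ‖a k‖}.encard ≤ n}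

/-- The Lorentz norm `‖a‖_{2,s} = (∑_{n ≥ 1} (a_n^*)^s n^(s/2-1))^(1/s)`, possibly infinite. -/
noncomputable def lorentz {𝕜 : Type} [RCLike 𝕜] (s : ℝ) (a : ℕ → 𝕜) : ℝ≥0∞ :=
  (∑' n : ℕ, ENNReal.ofReal (rearr a n ^ s * ((n : ℝ) + 1) ^ (s / 2 - 1))) ^ (1 / s)

section defs

variable {𝕜 E : Type} [RCLike 𝕜] [NormedAddCommGroup E] [NormedSpace 𝕜 E]

/-- `x` is a basis with coordinate functionals `xs`: linearly dense, biorthogonal, the functionals
separate the points, and the norms are bounded. -/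
def IsBasis (x : ℕ → E) (xs : ℕ → StrongDual 𝕜 E) : Prop :=
  Dense ((Submodule.span 𝕜 (Set.range x) : Submodule 𝕜 E) : Set E) ∧
  (∀ n k, xs n (x k) = if n = k then 1 else 0) ∧
  (∀ f : E, (∀ n, xs n f = 0) → f = 0) ∧
  ∃ M : ℝ, ∀ n, ‖x n‖ ≤ M ∧ ‖xs n‖ ≤ M

/-- The function `φ_m = sup {‖∑_{n ∈ A} ε_n x_n‖ : |A| ≤ m, |ε_n| = 1}`. -/
noncomputable def phi (𝕜 : Type) {E : Type} [RCLike 𝕜] [NormedAddCommGroup E] [NormedSpace 𝕜 E]
    (x : ℕ → E) (m : ℕ) : ℝ≥0∞ :=
  ⨆ (A : Finset ℕ) (ε : ℕ → 𝕜) (_ : A.card ≤ m) (_ : ∀ n, ‖ε n‖ = 1),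
    ENNReal.ofReal ‖∑ n ∈ A, ε n • x n‖

/-- The basis `x` with coordinate functionals `xs` is bidemocratic: `φ_m φ*_m ≤ C m` for all `m`. -/
def Bidemocratic (x : ℕ → E) (xs : ℕ → StrongDual 𝕜 E) : Prop :=
  ∃ C : ℝ, ∀ m : ℕ, phi 𝕜 x m * phi 𝕜 xs m ≤ ENNReal.ofReal (C * m)

/-- The embedding of `ℓ_{2,q}` into `E` by means of `x`. -/
def LowerEmbedding (x : ℕ → E) (q : ℝ) : Prop :=
  ∃ C : ℝ, ∀ a : ℕ →₀ 𝕜,
    ENNReal.ofReal ‖a.sum fun n c => c • x n‖ ≤ ENNReal.ofReal C * lorentz q a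

/-- The embedding of `E` into `ℓ_{2,r}` by means of the coordinate functionals `xs`. -/
def UpperEmbedding (xs : ℕ → StrongDual 𝕜 E) (r : ℝ) : Prop :=
  ∃ C : ℝ, ∀ f : E, lorentz r (fun n => xs n f) ≤ ENNReal.ofReal (C * ‖f‖)

end defs

/-! ### Blocks -/

/-- the number of the block which contains `n` -/
def blk (n : ℕ) : ℕ := Nat.log 2 (n + 1)

/-- the place of `n` in its block, from `0` on -/
def pos (n : ℕ) : ℕ := n + 1 - 2 ^ blk n

/-- the `j`-th block -/
def B (j : ℕ) : Finset ℕ := (range (2 ^ j)).map ⟨fun p => 2 ^ j - 1 + p, fun a b h => by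
  simpa using h⟩

theorem two_pow_pos' (j : ℕ) : 0 < 2 ^ j := by positivity

theorem blk_of (j p : ℕ) (hp : p < 2 ^ j) : blk (2 ^ j - 1 + p) = j := by
  unfold blk
  have h0 := two_pow_pos' j
  have : 2 ^ j - 1 + p + 1 = 2 ^ j + p := by omega
  rw [this]
  apply (Nat.log_eq_iff (Or.inr ⟨by norm_num, by omega⟩)).2
  constructor
  · omega
  · rw [pow_succ]; omega

theorem pos_of (j p : ℕ) (hp : p < 2 ^ j) : pos (2 ^ j - 1 + p) = p := by
  unfold pos
  rw [blk_of j p hp]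
  have h0 := two_pow_pos' j
  omega

theorem mem_B {j n : ℕ} : n ∈ B j ↔ blk n = j := by
  unfold B
  rw [Finset.mem_map]
  constructor
  · rintro ⟨p, hp, rfl⟩
    exact blk_of j p (mem_range.1 hp)
  · rintro rfl
    have h1 : 2 ^ blk n ≤ n + 1 := Nat.pow_log_le_self 2 (by omega)
    have h2 : n + 1 < 2 ^ (blk n + 1) := Nat.lt_pow_succ_log_self (by norm_num) _
    rw [pow_succ] at h2
    refine ⟨n + 1 - 2 ^ blk n, mem_range.2 (by omega), ?_⟩
    have h0 := two_pow_pos' (blk n)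
    show 2 ^ blk n - 1 + (n + 1 - 2 ^ blk n) = n
    omega

theorem pos_lt (n : ℕ) : pos n < 2 ^ blk n := by
  unfold pos
  have h1 : 2 ^ blk n ≤ n + 1 := Nat.pow_log_le_self 2 (by omega)
  have h2 : n + 1 < 2 ^ (blk n + 1) := Nat.lt_pow_succ_log_self (by norm_num) _
  rw [pow_succ] at h2
  omega

theorem pos_injOn (j : ℕ) : Set.InjOn pos {n | blk n = j} := by
  intro a ha b hb hab
  change blk a = j at ha
  change blk b = j at hb
  unfold pos at hab
  rw [ha, hb] at hab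
  have h1 : 2 ^ blk a ≤ a + 1 := Nat.pow_log_le_self 2 (by omega)
  have h2 : 2 ^ blk b ≤ b + 1 := Nat.pow_log_le_self 2 (by omega)
  rw [ha] at h1
  rw [hb] at h2
  omega

theorem sum_B {M : Type} [AddCommMonoid M] (j : ℕ) (g : ℕ → M) :
    ∑ n ∈ B j, g n = ∑ p ∈ range (2 ^ j), g (2 ^ j - 1 + p) := by
  unfold B
  rw [sum_map]
  rfl

/-- the weights -/
noncomputable def v (n : ℕ) : ℝ := 1 / √((pos n : ℝ) + 1)

theorem v_pos (n : ℕ) : 0 < v n := by unfold v; positivity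

/-- the harmonic numbers -/
noncomputable def h (j : ℕ) : ℝ := ∑ p ∈ range (2 ^ j), 1 / ((p : ℝ) + 1)

theorem one_le_h (j : ℕ) : 1 ≤ h j := by
  unfold h
  have h0 : 0 ∈ range (2 ^ j) := mem_range.2 (two_pow_pos' j)
  have := single_le_sum (f := fun p : ℕ => 1 / ((p : ℝ) + 1)) (fun i _ => by positivity) h0
  simpa using this

theorem h_tendsto : Tendsto h atTop atTop := by
  have h1 := Real.tendsto_sum_range_one_div_nat_succ_atTop
  exact h1.comp (tendsto_pow_atTop_atTop_of_one_lt (by norm_num))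

/-- the norm of the weight vector of the block -/
noncomputable def s (j : ℕ) : ℝ := √(h j)

theorem s_sq (j : ℕ) : s j * s j = h j := Real.mul_self_sqrt (zero_le_one.trans (one_le_h j))

theorem one_le_s (j : ℕ) : 1 ≤ s j := Real.one_le_sqrt.2 (one_le_h j)

theorem s_pos (j : ℕ) : 0 < s j := zero_lt_one.trans_le (one_le_s j)

theorem v_sq (n : ℕ) : v n * v n = 1 / ((pos n : ℝ) + 1) := by
  unfold v
  rw [div_mul_div_comm, one_mul, Real.mul_self_sqrt (by positivity)]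

theorem sum_v_sq (j : ℕ) : ∑ n ∈ B j, v n * v n = h j := by
  rw [sum_B]
  unfold h
  refine sum_congr rfl fun p hp => ?_
  rw [v_sq, pos_of j p (mem_range.1 hp)]

theorem v_le_one (n : ℕ) : v n ≤ 1 := by
  unfold v
  rw [div_le_one (by positivity)]
  exact Real.one_le_sqrt.2 (by linarith [(Nat.cast_nonneg (pos n) : (0 : ℝ) ≤ _)])

/-- elementary estimate -/
theorem sum_inv_sqrt_range (k : ℕ) : ∑ p ∈ range k, 1 / √((p : ℝ) + 1) ≤ 2 * √k := by
  induction k with
  | zero => simp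
  | succ k ih =>
    rw [sum_range_succ]
    have h1 : 0 < √((k : ℝ) + 1) := by positivity
    have h2 : √((k : ℝ) + 1) * √((k : ℝ) + 1) = k + 1 := Real.mul_self_sqrt (by positivity)
    have h3 : √(k : ℝ) * √(k : ℝ) = k := Real.mul_self_sqrt (by positivity)
    have h4 : 0 ≤ √(k : ℝ) := Real.sqrt_nonneg _
    have h5 : 1 / √((k : ℝ) + 1) ≤ 2 * (√((k : ℝ) + 1) - √k) := by
      rw [div_le_iff₀ h1]
      nlinarith [sq_nonneg (√((k : ℝ) + 1) - √k)]
    push_cast
    linarith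

theorem sum_inv_sqrt (P : Finset ℕ) : ∑ p ∈ P, 1 / √((p : ℝ) + 1) ≤ 3 * √(P.card : ℝ) := by
  set k := P.card with hk
  rw [← sum_filter_add_sum_filter_not P (fun p => p < k)]
  have h1 : ∑ p ∈ P.filter (fun p => p < k), 1 / √((p : ℝ) + 1) ≤ 2 * √(k : ℝ) := by
    refine le_trans (sum_le_sum_of_subset_of_nonneg ?_ fun i _ _ => by positivity)
      (sum_inv_sqrt_range k)
    intro p hp
    exact mem_range.2 (mem_filter.1 hp).2
  have h2 : ∑ p ∈ P.filter (fun p => ¬ p < k), 1 / √((p : ℝ) + 1) ≤ √(k : ℝ) := by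
    rcases Nat.eq_zero_or_pos k with hk0 | hk0
    · have : P = ∅ := card_eq_zero.1 (by omega)
      subst this
      simp
    · have hk1 : (0 : ℝ) < √k := Real.sqrt_pos.2 (by exact_mod_cast hk0)
      have h3 : ∀ p ∈ P.filter (fun p => ¬ p < k), 1 / √((p : ℝ) + 1) ≤ 1 / √k := by
        intro p hp
        have hp2 : k ≤ p := not_lt.1 (mem_filter.1 hp).2
        apply one_div_le_one_div_of_le hk1
        apply Real.sqrt_le_sqrt
        have : (k : ℝ) ≤ p := by exact_mod_cast hp2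
        linarith
      refine (sum_le_card_nsmul _ _ _ h3).trans ?_
      rw [nsmul_eq_mul]
      have h4 : ((P.filter (fun p => ¬ p < k)).card : ℝ) ≤ k := by
        rw [hk]; exact_mod_cast card_filter_le _ _
      calc ((P.filter (fun p => ¬ p < k)).card : ℝ) * (1 / √k) ≤ k * (1 / √k) :=
            mul_le_mul_of_nonneg_right h4 (by positivity)
        _ = √k := by
            rw [mul_one_div, Real.div_sqrt]
  linarith

theorem sum_v (j : ℕ) (A : Finset ℕ) (hA : ∀ n ∈ A, blk n = j) :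
    ∑ n ∈ A, v n ≤ 3 * √(A.card : ℝ) := by
  have hinj : Set.InjOn pos (A : Set ℕ) := (pos_injOn j).mono fun n hn => hA n hn
  have h1 : ∑ p ∈ A.image pos, 1 / √((p : ℝ) + 1) = ∑ n ∈ A, v n := by
    rw [sum_image hinj]
    rfl
  rw [← h1]
  have := sum_inv_sqrt (A.image pos)
  rwa [card_image_of_injOn hinj] at this

/-! ### Vectors -/

section vectors

variable {𝕜 E : Type} [RCLike 𝕜] [NormedAddCommGroup E] [InnerProductSpace 𝕜 E]

/-- the unit vector `w_j` -/
noncomputable def w (𝕜 : Type) {E : Type} [RCLike 𝕜] [NormedAddCommGroup E]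
    [InnerProductSpace 𝕜 E] (e : ℕ → E) (j : ℕ) : E := ∑ n ∈ B j, ((v n / s j : ℝ) : 𝕜) • e n

theorem inner_e_w {e : ℕ → E} (he : Orthonormal 𝕜 e) (n j : ℕ) :
    ⟪e n, w 𝕜 e j⟫_𝕜 = if blk n = j then ((v n / s j : ℝ) : 𝕜) else 0 := by
  unfold w
  simp_rw [inner_sum, inner_smul_right, orthonormal_iff_ite.1 he, mul_ite, mul_one, mul_zero]
  rw [sum_ite_eq]
  simp_rw [mem_B]

theorem inner_w_e {e : ℕ → E} (he : Orthonormal 𝕜 e) (n j : ℕ) :
    ⟪w 𝕜 e j, e n⟫_𝕜 = if blk n = j then ((v n / s j : ℝ) : 𝕜) else 0 := by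
  rw [← inner_conj_symm, inner_e_w he]
  split_ifs
  · exact RCLike.conj_ofReal _
  · exact map_zero _

theorem orthonormal_w {e : ℕ → E} (he : Orthonormal 𝕜 e) : Orthonormal 𝕜 (w 𝕜 e) := by
  rw [orthonormal_iff_ite]
  intro i j
  conv_lhs => rw [w]
  simp_rw [sum_inner, inner_smul_left, inner_e_w he, RCLike.conj_ofReal]
  split_ifs with hij
  · subst hij
    have h1 : ∀ n ∈ B i, ((v n / s i : ℝ) : 𝕜) * (if blk n = i then ((v n / s i : ℝ) : 𝕜) else 0) =
        ((v n * v n / h i : ℝ) : 𝕜) := by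
      intro n hn
      rw [if_pos (mem_B.1 hn), ← RCLike.ofReal_mul, div_mul_div_comm, s_sq]
    rw [sum_congr rfl h1, ← RCLike.ofReal_sum, ← sum_div, sum_v_sq, div_self, RCLike.ofReal_one]
    exact (zero_lt_one.trans_le (one_le_h i)).ne'
  · apply sum_eq_zero
    intro n hn
    rw [if_neg, mul_zero]
    rw [mem_B.1 hn]
    exact hij

/-- the vectors `e_n + c n w_j`, `n ∈ B_j` -/
noncomputable def pert (𝕜 : Type) {E : Type} [RCLike 𝕜] [NormedAddCommGroup E]
    [InnerProductSpace 𝕜 E] (e : ℕ → E) (c : ℕ → ℝ) (n : ℕ) : E :=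
  e n + ((c n : ℝ) : 𝕜) • w 𝕜 e (blk n)

/-- the coefficients for `T_j` -/
noncomputable def cT (n : ℕ) : ℝ := v n

/-- the coefficients for `T_j⁻¹` -/
noncomputable def cI (n : ℕ) : ℝ := -(v n / (1 + s (blk n)))

theorem abs_cT (n : ℕ) : |cT n| ≤ v n := by unfold cT; rw [abs_of_pos (v_pos n)]

theorem abs_cI (n : ℕ) : |cI n| ≤ v n := by
  unfold cI
  have h1 := s_pos (blk n)
  rw [abs_neg, abs_of_pos (div_pos (v_pos n) (by linarith))]
  exact div_le_self (v_pos n).le (by linarith)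

theorem inner_pert {e : ℕ → E} (he : Orthonormal 𝕜 e) (c d : ℕ → ℝ) (m n : ℕ) :
    ⟪pert 𝕜 e c m, pert 𝕜 e d n⟫_𝕜 = (if m = n then 1 else 0) +
      if blk m = blk n then ((d n * (v m / s (blk n)) + c m * (v n / s (blk n)) + c m * d n : ℝ) : 𝕜)
        else 0 := by
  unfold pert
  rw [inner_add_left, inner_add_right, inner_add_right, inner_smul_left, inner_smul_right,
    inner_smul_right, inner_smul_left, inner_e_w he, inner_w_e he, orthonormal_iff_ite.1 he,
    orthonormal_iff_ite.1 (orthonormal_w he)]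
  by_cases hb : blk m = blk n
  · rw [if_pos hb, if_pos hb, if_pos hb.symm, hb]
    simp only [RCLike.conj_ofReal, if_true, mul_one]
    push_cast
    ring
  · rw [if_neg hb, if_neg hb, if_neg (Ne.symm hb), if_neg hb]
    simp

theorem inner_cT_cI {e : ℕ → E} (he : Orthonormal 𝕜 e) (m n : ℕ) :
    ⟪pert 𝕜 e cT m, pert 𝕜 e cI n⟫_𝕜 = if m = n then 1 else 0 := by
  rw [inner_pert he]
  have h2 : (if blk m = blk n then ((cI n * (v m / s (blk n)) + cT m * (v n / s (blk n)) +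
      cT m * cI n : ℝ) : 𝕜) else 0) = 0 := by
    split_ifs
    · have : cI n * (v m / s (blk n)) + cT m * (v n / s (blk n)) + cT m * cI n = 0 := by
        unfold cI cT
        have h1 := s_pos (blk n)
        field_simp
        ring
      rw [this, RCLike.ofReal_zero]
    · rfl
  rw [h2, add_zero]

theorem inner_cI_cT {e : ℕ → E} (he : Orthonormal 𝕜 e) (m n : ℕ) :
    ⟪pert 𝕜 e cI m, pert 𝕜 e cT n⟫_𝕜 = if m = n then 1 else 0 := by
  rw [← inner_conj_symm, inner_cT_cI he]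
  by_cases hmn : m = n
  · subst hmn; simp
  · rw [if_neg hmn, if_neg (Ne.symm hmn), map_zero]

/-- the norm of sums of the vectors with unimodular coefficients -/
theorem norm_sum_pert {e : ℕ → E} (he : Orthonormal 𝕜 e) {c : ℕ → ℝ} (hc : ∀ n, |c n| ≤ v n)
    (A : Finset ℕ) (ε : ℕ → 𝕜) (hε : ∀ n, ‖ε n‖ = 1) :
    ‖∑ n ∈ A, ε n • pert 𝕜 e c n‖ ≤ 4 * √(A.card : ℝ) := by
  have h1 : ∑ n ∈ A, ε n • pert 𝕜 e c n = ∑ n ∈ A, ε n • e n +
      ∑ j ∈ A.image blk, (∑ n ∈ A with blk n = j, ε n * ((c n : ℝ) : 𝕜)) • w 𝕜 e j := by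
    have h2 : ∑ j ∈ A.image blk, (∑ n ∈ A with blk n = j, ε n * ((c n : ℝ) : 𝕜)) • w 𝕜 e j =
        ∑ n ∈ A, (ε n * ((c n : ℝ) : 𝕜)) • w 𝕜 e (blk n) := by
      rw [← sum_fiberwise_of_maps_to (s := A) (t := A.image blk) (g := blk)
        (fun n hn => mem_image_of_mem _ hn)]
      refine sum_congr rfl fun j _ => ?_
      rw [sum_smul]
      refine sum_congr rfl fun n hn => ?_
      rw [(mem_filter.1 hn).2]
    rw [h2, ← sum_add_distrib]
    refine sum_congr rfl fun n _ => ?_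
    rw [pert, smul_add, smul_smul]
  have h3 : ‖∑ n ∈ A, ε n • e n‖ = √(A.card : ℝ) := by
    rw [← sq_eq_sq₀ (norm_nonneg _) (Real.sqrt_nonneg _), Real.sq_sqrt (Nat.cast_nonneg _)]
    have h4 := he.inner_sum ε ε A
    have h5 : ∑ i ∈ A, (starRingEnd 𝕜) (ε i) * ε i = ((A.card : ℝ) : 𝕜) := by
      have : ∀ i ∈ A, (starRingEnd 𝕜) (ε i) * ε i = 1 := by
        intro i _
        rw [RCLike.conj_mul, hε i]
        simp
      rw [sum_congr rfl this]
      simp
    rw [h5, inner_self_eq_norm_sq_to_K] at h4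
    exact_mod_cast h4
  have h6 : ‖∑ j ∈ A.image blk, (∑ n ∈ A with blk n = j, ε n * ((c n : ℝ) : 𝕜)) • w 𝕜 e j‖ ≤
      3 * √(A.card : ℝ) := by
    rw [← sq_le_sq₀ (norm_nonneg _) (by positivity), mul_pow, Real.sq_sqrt (Nat.cast_nonneg _)]
    set b : ℕ → 𝕜 := fun j => ∑ n ∈ A with blk n = j, ε n * ((c n : ℝ) : 𝕜) with hb
    have h4 := (orthonormal_w he).inner_sum b b (A.image blk)
    have h5 : ∑ i ∈ A.image blk, (starRingEnd 𝕜) (b i) * b i =
        ((∑ i ∈ A.image blk, ‖b i‖ ^ 2 : ℝ) : 𝕜) := by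
      push_cast
      refine sum_congr rfl fun i _ => ?_
      rw [RCLike.conj_mul]
    rw [h5, inner_self_eq_norm_sq_to_K] at h4
    have h7 : ‖∑ j ∈ A.image blk, b j • w 𝕜 e j‖ ^ 2 = ∑ i ∈ A.image blk, ‖b i‖ ^ 2 := by
      exact_mod_cast h4
    rw [h7]
    have h8 : ∀ j, ‖b j‖ ^ 2 ≤ 3 ^ 2 * ((A.filter (fun n => blk n = j)).card : ℝ) := by
      intro j
      have h9 : ‖b j‖ ≤ 3 * √((A.filter (fun n => blk n = j)).card : ℝ) := by
        refine (norm_sum_le _ _).trans ?_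
        refine le_trans (sum_le_sum fun n _ => ?_) (sum_v j _ fun n hn => (mem_filter.1 hn).2)
        rw [norm_mul, hε, one_mul, RCLike.norm_ofReal]
        exact hc n
      calc ‖b j‖ ^ 2 ≤ (3 * √((A.filter (fun n => blk n = j)).card : ℝ)) ^ 2 :=
            pow_le_pow_left₀ (norm_nonneg _) h9 2
        _ = _ := by rw [mul_pow, Real.sq_sqrt (Nat.cast_nonneg _)]
    refine (sum_le_sum fun j _ => h8 j).trans ?_
    rw [← mul_sum]
    refine mul_le_mul_of_nonneg_left (le_of_eq ?_) (by norm_num)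
    rw [← Nat.cast_sum]
    congr 1
    exact (card_eq_sum_card_image blk A).symm
  rw [h1]
  calc _ ≤ ‖∑ n ∈ A, ε n • e n‖ + _ := norm_add_le _ _
    _ ≤ √(A.card : ℝ) + 3 * √(A.card : ℝ) := by rw [h3]; linarith
    _ = _ := by ring

theorem sum_v_pert (e : ℕ → E) (c : ℕ → ℝ) (γ : ℝ) (j : ℕ) (hc : ∀ n ∈ B j, c n = γ * v n) :
    ∑ n ∈ B j, ((v n : ℝ) : 𝕜) • pert 𝕜 e c n = ((s j + γ * h j : ℝ) : 𝕜) • w 𝕜 e j := by
  have h1 : ∀ n ∈ B j, ((v n : ℝ) : 𝕜) • pert 𝕜 e c n =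
      ((s j : ℝ) : 𝕜) • (((v n / s j : ℝ) : 𝕜) • e n) + ((γ * (v n * v n) : ℝ) : 𝕜) • w 𝕜 e j := by
    intro n hn
    rw [pert, mem_B.1 hn, smul_add, smul_smul, smul_smul, hc n hn, ← RCLike.ofReal_mul,
      ← RCLike.ofReal_mul, mul_div_cancel₀ _ (s_pos j).ne']
    congr 3
    ring
  rw [sum_congr rfl h1, sum_add_distrib, ← smul_sum, ← sum_smul, ← RCLike.ofReal_sum, ← mul_sum,
    sum_v_sq, RCLike.ofReal_add, add_smul]
  rfl

theorem e_mem_span (e : ℕ → E) (c γ : ℕ → ℝ) (hc : ∀ n, c n = γ (blk n) * v n)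
    (hγ : ∀ j, s j + γ j * h j ≠ 0) (n : ℕ) :
    e n ∈ Submodule.span 𝕜 (Set.range (pert 𝕜 e c)) := by
  have hw : ∀ j, w 𝕜 e j ∈ Submodule.span 𝕜 (Set.range (pert 𝕜 e c)) := by
    intro j
    have h1 := sum_v_pert (𝕜 := 𝕜) e c (γ j) j (fun n hn => by rw [hc n, mem_B.1 hn])
    have h2 : ∑ n ∈ B j, ((v n : ℝ) : 𝕜) • pert 𝕜 e c n ∈
        Submodule.span 𝕜 (Set.range (pert 𝕜 e c)) :=
      Submodule.sum_mem _ fun n _ => Submodule.smul_mem _ _ (Submodule.subset_span ⟨n, rfl⟩)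
    rw [h1] at h2
    refine (Submodule.smul_mem_iff _ ?_).1 h2
    exact_mod_cast hγ j
  have h3 : e n = pert 𝕜 e c n - ((c n : ℝ) : 𝕜) • w 𝕜 e (blk n) := by
    rw [pert, add_sub_cancel_right]
  rw [h3]
  exact Submodule.sub_mem _ (Submodule.subset_span ⟨n, rfl⟩) (Submodule.smul_mem _ _ (hw _))

end vectors

/-! ### Rearrangements -/

section rearr

variable {𝕜 : Type} [RCLike 𝕜]

theorem rearr_nonneg (a : ℕ → 𝕜) (n : ℕ) : 0 ≤ rearr a n := Real.sInf_nonneg fun _ ht => ht.1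

theorem rearr_le {a : ℕ → 𝕜} {n : ℕ} {t : ℝ} (ht : 0 ≤ t)
    (h1 : {k : ℕ | t < ‖a k‖}.encard ≤ n) : rearr a n ≤ t :=
  csInf_le ⟨0, fun _ hu => hu.1⟩ ⟨ht, h1⟩

theorem rpow_aux {t : ℝ} (ht : 0 < t) (q : ℝ) : (1 / √t) ^ q * t ^ (q / 2 - 1) = 1 / t := by
  rw [Real.sqrt_eq_rpow, one_div, ← Real.rpow_neg ht.le, ← Real.rpow_mul ht.le,
    ← Real.rpow_add ht]
  have h1 : -(1 / 2) * q + (q / 2 - 1) = -1 := by ring
  rw [h1, Real.rpow_neg_one, one_div]

theorem lorentz_le {a : ℕ → 𝕜} {j : ℕ} (ha : ∀ n, ‖a n‖ = if blk n = j then v n else 0) {q : ℝ}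
    (hq : 0 < q) : lorentz q a ≤ ENNReal.ofReal (h j ^ (1 / q)) := by
  unfold lorentz
  rw [← ENNReal.ofReal_rpow_of_nonneg (zero_le_one.trans (one_le_h j)) (by positivity)]
  refine ENNReal.rpow_le_rpow ?_ (by positivity)
  have h0 : ∀ n, n ∉ range (2 ^ j) →
      ENNReal.ofReal (rearr a n ^ q * ((n : ℝ) + 1) ^ (q / 2 - 1)) = 0 := by
    intro n hn
    have h1 : rearr a n = 0 := by
      refine le_antisymm (rearr_le le_rfl ?_) (rearr_nonneg a n)
      have h2 : {k : ℕ | 0 < ‖a k‖} ⊆ (B j : Set ℕ) := by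
        intro k hk
        change 0 < ‖a k‖ at hk
        rw [ha] at hk
        split_ifs at hk with h3
        · exact mem_B.2 h3
        · exact absurd hk (lt_irrefl _)
      refine (Set.encard_le_encard h2).trans ?_
      rw [Set.encard_coe_eq_coe_finsetCard]
      have : (B j).card = 2 ^ j := by unfold B; rw [card_map, card_range]
      rw [this]
      exact_mod_cast not_lt.1 (fun h4 => hn (mem_range.2 h4))
    rw [h1, Real.zero_rpow hq.ne', zero_mul, ENNReal.ofReal_zero]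
  rw [tsum_eq_sum h0]
  unfold h
  rw [ENNReal.ofReal_sum_of_nonneg (fun i _ => by positivity)]
  refine sum_le_sum fun n _ => ENNReal.ofReal_le_ofReal ?_
  have h1 : rearr a n ≤ 1 / √((n : ℝ) + 1) := by
    refine rearr_le (by positivity) ?_
    have h2 : {k : ℕ | 1 / √((n : ℝ) + 1) < ‖a k‖} ⊆ {k | blk k = j} := by
      intro k hk
      change _ < ‖a k‖ at hk
      rw [ha] at hk
      split_ifs at hk with h3
      · exact h3
      · exact absurd hk (not_lt.2 (by positivity))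
    rw [← ((pos_injOn j).mono h2).encard_image]
    refine le_trans (Set.encard_le_encard (t := ((range n : Finset ℕ) : Set ℕ)) ?_) (by
      rw [Set.encard_coe_eq_coe_finsetCard, card_range])
    rintro _ ⟨k, hk, rfl⟩
    have h3 : blk k = j := h2 hk
    change _ < ‖a k‖ at hk
    rw [ha, if_pos h3] at hk
    unfold v at hk
    have h4 : √((pos k : ℝ) + 1) < √((n : ℝ) + 1) := by
      rwa [one_div_lt_one_div (by positivity) (by positivity)] at hk
    have h5 : (pos k : ℝ) + 1 < (n : ℝ) + 1 := lt_of_not_ge fun h6 =>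
      absurd h4 (not_lt.2 (Real.sqrt_le_sqrt h6))
    have h6 : pos k < n := by exact_mod_cast (by linarith : (pos k : ℝ) < n)
    exact mem_coe.2 (mem_range.2 h6)
  have hn : (0 : ℝ) < (n : ℝ) + 1 := by positivity
  calc rearr a n ^ q * ((n : ℝ) + 1) ^ (q / 2 - 1)
      ≤ (1 / √((n : ℝ) + 1)) ^ q * ((n : ℝ) + 1) ^ (q / 2 - 1) := by
        refine mul_le_mul_of_nonneg_right ?_ (by positivity)
        exact Real.rpow_le_rpow (rearr_nonneg a n) h1 hq.le
    _ = 1 / ((n : ℝ) + 1) := rpow_aux hn q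

theorem le_lorentz {a : ℕ → 𝕜} {j : ℕ} (ha : ∀ n, ‖a n‖ ≤ 2)
    (ha' : ∀ n, blk n = j → v n ≤ ‖a n‖) {r : ℝ} (hr : 0 < r) :
    ENNReal.ofReal (h j ^ (1 / r)) ≤ lorentz r a := by
  unfold lorentz
  rw [← ENNReal.ofReal_rpow_of_nonneg (zero_le_one.trans (one_le_h j)) (by positivity)]
  refine ENNReal.rpow_le_rpow ?_ (by positivity)
  refine le_trans ?_ (ENNReal.sum_le_tsum (range (2 ^ j)))
  unfold h
  rw [ENNReal.ofReal_sum_of_nonneg (fun i _ => by positivity)]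
  refine sum_le_sum fun n hn => ENNReal.ofReal_le_ofReal ?_
  have hn' := mem_range.1 hn
  have h1 : 1 / √((n : ℝ) + 1) ≤ rearr a n := by
    refine le_csInf ⟨2, by norm_num, ?_⟩ ?_
    · have : {k : ℕ | 2 < ‖a k‖} = ∅ := by
        ext k
        simp only [Set.mem_empty_iff_false, iff_false]
        exact fun hk => absurd hk (not_lt.2 (ha k))
      rw [this, Set.encard_empty]
      exact bot_le
    · rintro t ⟨-, ht⟩
      by_contra hlt
      rw [not_le] at hlt
      have h2 : (((range (n + 1)).image (fun p => 2 ^ j - 1 + p) : Finset ℕ) : Set ℕ) ⊆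
          {k : ℕ | t < ‖a k‖} := by
        intro k hk
        obtain ⟨p, hp, rfl⟩ := mem_image.1 (mem_coe.1 hk)
        have hp1 : p ≤ n := Nat.lt_succ_iff.1 (mem_range.1 hp)
        have hp2 : p < 2 ^ j := by omega
        refine lt_of_lt_of_le hlt (le_trans ?_ (ha' _ (blk_of j p hp2)))
        unfold v
        rw [pos_of j p hp2]
        apply one_div_le_one_div_of_le (by positivity)
        apply Real.sqrt_le_sqrt
        have : (p : ℝ) ≤ n := by exact_mod_cast hp1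
        linarith
      have h3 := (Set.encard_le_encard h2).trans ht
      rw [Set.encard_coe_eq_coe_finsetCard, card_image_of_injective _ (fun a b hab => by
        simpa using hab), card_range] at h3
      have h4 : n + 1 ≤ n := by exact_mod_cast h3
      omega
  have hn0 : (0 : ℝ) < (n : ℝ) + 1 := by positivity
  calc 1 / ((n : ℝ) + 1) = (1 / √((n : ℝ) + 1)) ^ r * ((n : ℝ) + 1) ^ (r / 2 - 1) :=
        (rpow_aux hn0 r).symm
    _ ≤ rearr a n ^ r * ((n : ℝ) + 1) ^ (r / 2 - 1) := by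
        refine mul_le_mul_of_nonneg_right ?_ (by positivity)
        exact Real.rpow_le_rpow (by positivity) h1 hr.le

end rearr

/-! ### The basis -/

section basis

variable {𝕜 E : Type} [RCLike 𝕜] [NormedAddCommGroup E] [InnerProductSpace 𝕜 E]

/-- the factors `γ_j` with `c n = γ_j v n` for `n ∈ B_j` -/
noncomputable def gam (b : Bool) (j : ℕ) : ℝ :=
  if Even j = (b = true) then 1 else -(1 / (1 + s j))

/-- the coefficients for `T_j` in the blocks of one parity and for `T_j⁻¹` in the others -/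
noncomputable def cc (b : Bool) (n : ℕ) : ℝ := if Even (blk n) = (b = true) then cT n else cI n

theorem cc_eq (b : Bool) (n : ℕ) : cc b n = gam b (blk n) * v n := by
  unfold cc gam cT cI
  split_ifs
  · rw [one_mul]
  · ring

theorem gam_ne (b : Bool) (j : ℕ) : s j + gam b j * h j ≠ 0 := by
  have h1 := s_pos j
  unfold gam
  split_ifs
  · have := one_le_h j
    have h2 : 0 < s j + 1 * h j := by linarith
    exact h2.ne'
  · have h2 : s j + -(1 / (1 + s j)) * h j = s j / (1 + s j) := by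
      rw [← s_sq]
      field_simp
      ring
    rw [h2]
    positivity

theorem abs_cc (b : Bool) (n : ℕ) : |cc b n| ≤ v n := by
  unfold cc
  split_ifs
  · exact abs_cT n
  · exact abs_cI n

theorem biorth {e : ℕ → E} (he : Orthonormal 𝕜 e) (n k : ℕ) :
    ⟪pert 𝕜 e (cc false) n, pert 𝕜 e (cc true) k⟫_𝕜 = if n = k then 1 else 0 := by
  by_cases hb : blk n = blk k
  · by_cases hev : Even (blk n)
    · have h1 : pert 𝕜 e (cc false) n = pert 𝕜 e cI n := by
        unfold pert cc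
        simp [hev]
      have h2 : pert 𝕜 e (cc true) k = pert 𝕜 e cT k := by
        unfold pert cc
        rw [← hb]
        simp [hev]
      rw [h1, h2, inner_cI_cT he]
    · have h1 : pert 𝕜 e (cc false) n = pert 𝕜 e cT n := by
        unfold pert cc
        simp [hev]
      have h2 : pert 𝕜 e (cc true) k = pert 𝕜 e cI k := by
        unfold pert cc
        rw [← hb]
        simp [hev]
      rw [h1, h2, inner_cT_cI he]
  · rw [inner_pert he, if_neg hb, add_zero]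

/-- the coordinate functionals -/
noncomputable def fnl (e : ℕ → E) (n : ℕ) : StrongDual 𝕜 E := innerSL 𝕜 (pert 𝕜 e (cc false) n)

theorem sum_fnl (e : ℕ → E) (A : Finset ℕ) (ε : ℕ → 𝕜) :
    ‖∑ n ∈ A, ε n • fnl (𝕜 := 𝕜) e n‖ = ‖∑ n ∈ A, (starRingEnd 𝕜 (ε n)) • pert 𝕜 e (cc false) n‖ := by
  have h1 : ∑ n ∈ A, ε n • fnl (𝕜 := 𝕜) e n =
      innerSL 𝕜 (∑ n ∈ A, (starRingEnd 𝕜 (ε n)) • pert 𝕜 e (cc false) n) := by
    rw [map_sum]
    refine sum_congr rfl fun n _ => ?_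
    ext f
    simp [fnl]
  rw [h1, innerSL_apply_norm]

theorem norm_pert_le {e : ℕ → E} (he : Orthonormal 𝕜 e) (b : Bool) (n : ℕ) :
    ‖pert 𝕜 e (cc b) n‖ ≤ 4 := by
  have h1 := norm_sum_pert he (abs_cc b) {n} (fun _ => 1) (fun _ => by simp)
  simpa using h1

theorem isBasis {e : ℕ → E} (he : Orthonormal 𝕜 e)
    (hd : Dense ((Submodule.span 𝕜 (Set.range e) : Submodule 𝕜 E) : Set E)) :
    IsBasis (pert 𝕜 e (cc true)) (fnl (𝕜 := 𝕜) e) := by
  refine ⟨?_, ?_, ?_, 4, ?_⟩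
  · refine hd.mono ?_
    refine Submodule.span_le.2 ?_
    rintro _ ⟨n, rfl⟩
    exact e_mem_span e _ _ (cc_eq true) (gam_ne true) n
  · intro n k
    exact biorth he n k
  · intro f hf
    have h1 : (Submodule.span 𝕜 (Set.range e)) ≤ (LinearMap.ker ((innerSL 𝕜 f : E →L[𝕜] 𝕜) : E →ₗ[𝕜] 𝕜)) := by
      have h2 : Submodule.span 𝕜 (Set.range (pert 𝕜 e (cc false))) ≤
          (LinearMap.ker ((innerSL 𝕜 f : E →L[𝕜] 𝕜) : E →ₗ[𝕜] 𝕜)) := by
        rw [Submodule.span_le]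
        rintro _ ⟨n, rfl⟩
        change ⟪f, pert 𝕜 e (cc false) n⟫_𝕜 = 0
        rw [← inner_conj_symm]
        have := hf n
        change ⟪pert 𝕜 e (cc false) n, f⟫_𝕜 = 0 at this
        rw [this, map_zero]
      rw [Submodule.span_le]
      rintro _ ⟨n, rfl⟩
      exact h2 (e_mem_span e _ _ (cc_eq false) (gam_ne false) n)
    have h3 : ∀ y : E, ⟪f, y⟫_𝕜 = 0 := by
      intro y
      have h4 : (innerSL 𝕜 f : E →L[𝕜] 𝕜) = 0 := by
        refine ContinuousLinearMap.ext_on hd ?_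
        rintro _ ⟨n, rfl⟩
        exact h1 (Submodule.subset_span ⟨n, rfl⟩)
      have h5 := congrArg (fun g : E →L[𝕜] 𝕜 => g y) h4
      exact h5
    exact inner_self_eq_zero.1 (h3 f)
  · intro n
    refine ⟨norm_pert_le he true n, ?_⟩
    unfold fnl
    rw [innerSL_apply_norm]
    exact norm_pert_le he false n

theorem phi_le (x : ℕ → E) (hx : ∀ (A : Finset ℕ) (ε : ℕ → 𝕜), (∀ n, ‖ε n‖ = 1) →
    ‖∑ n ∈ A, ε n • x n‖ ≤ 4 * √(A.card : ℝ)) (m : ℕ) :
    phi 𝕜 x m ≤ ENNReal.ofReal (4 * √(m : ℝ)) := by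
  unfold phi
  refine iSup_le fun A => iSup_le fun ε => iSup_le fun hA => iSup_le fun hε => ?_
  refine ENNReal.ofReal_le_ofReal ((hx A ε hε).trans ?_)
  refine mul_le_mul_of_nonneg_left (Real.sqrt_le_sqrt ?_) (by norm_num)
  exact_mod_cast hA

theorem bidemocratic {e : ℕ → E} (he : Orthonormal 𝕜 e) :
    Bidemocratic (pert 𝕜 e (cc true)) (fnl (𝕜 := 𝕜) e) := by
  refine ⟨16, fun m => ?_⟩
  have h1 := phi_le (pert 𝕜 e (cc true)) (fun A ε hε => norm_sum_pert he (abs_cc true) A ε hε) m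
  have h2 : phi 𝕜 (fnl (𝕜 := 𝕜) e) m ≤ ENNReal.ofReal (4 * √(m : ℝ)) := by
    unfold phi
    refine iSup_le fun A => iSup_le fun ε => iSup_le fun hA => iSup_le fun hε => ?_
    rw [sum_fnl]
    refine ENNReal.ofReal_le_ofReal ((norm_sum_pert he (abs_cc false) A _ fun n => ?_).trans ?_)
    · rw [RCLike.norm_conj]; exact hε n
    · refine mul_le_mul_of_nonneg_left (Real.sqrt_le_sqrt ?_) (by norm_num)
      exact_mod_cast hA
  refine (mul_le_mul' h1 h2).trans ?_
  rw [← ENNReal.ofReal_mul (by positivity)]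
  refine ENNReal.ofReal_le_ofReal (le_of_eq ?_)
  have : √(m : ℝ) * √(m : ℝ) = m := Real.mul_self_sqrt (Nat.cast_nonneg m)
  nlinarith

theorem exists_block (C p : ℝ) (hp : 0 < p) (P : ℕ → Prop) (hP : ∀ i, ∃ j, i ≤ j ∧ P j) :
    ∃ j, P j ∧ C < h j ^ p := by
  have h1 : Tendsto (fun j => h j ^ p) atTop atTop := (tendsto_rpow_atTop hp).comp h_tendsto
  obtain ⟨i, hi⟩ := eventually_atTop.1 (h1.eventually_gt_atTop C)
  obtain ⟨j, hij, hj⟩ := hP i
  exact ⟨j, hj, hi j hij⟩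

theorem not_lower {e : ℕ → E} (he : Orthonormal 𝕜 e) {q : ℝ} (hq : 1 < q) :
    ¬ LowerEmbedding (𝕜 := 𝕜) (pert 𝕜 e (cc true)) q := by
  rintro ⟨C, hC⟩
  have hq0 : 0 < q := by linarith
  obtain ⟨j, hj, hlt⟩ := exists_block (max C 0) (1 - 1 / q) (by
    rw [sub_pos, div_lt_one hq0]; exact hq) Even
    (fun i => ⟨2 * i, by omega, even_two_mul i⟩)
  have h0 : 0 < h j := zero_lt_one.trans_le (one_le_h j)
  let a : ℕ →₀ 𝕜 := Finsupp.onFinset (B j) (fun n => if blk n = j then ((v n : ℝ) : 𝕜) else 0)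
    (fun n hn => by
      by_contra h1
      rw [mem_B] at h1
      exact hn (if_neg h1))
  have ha : ∀ n, a n = if blk n = j then ((v n : ℝ) : 𝕜) else 0 := fun n => rfl
  have h1 : a.sum (fun n c => c • pert 𝕜 e (cc true) n) = ((s j + 1 * h j : ℝ) : 𝕜) • w 𝕜 e j := by
    rw [← sum_v_pert e (cc true) 1 j]
    · have h2 : a.sum (fun n c => c • pert 𝕜 e (cc true) n) =
          ∑ n ∈ B j, a n • pert 𝕜 e (cc true) n :=
        Finsupp.onFinset_sum _ (fun n => zero_smul 𝕜 _)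
      rw [h2]
      refine sum_congr rfl fun n hn => ?_
      rw [ha, if_pos (mem_B.1 hn)]
    · intro n hn
      rw [cc_eq, mem_B.1 hn]
      unfold gam
      rw [if_pos]
      simpa using hj
  have h2 : h j ≤ ‖a.sum (fun n c => c • pert 𝕜 e (cc true) n)‖ := by
    rw [h1, norm_smul, (orthonormal_w he).1 j, mul_one, RCLike.norm_ofReal]
    refine le_trans ?_ (le_abs_self _)
    have := s_pos j
    linarith
  have h3 : lorentz q (a : ℕ → 𝕜) ≤ ENNReal.ofReal (h j ^ (1 / q)) := by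
    refine lorentz_le (fun n => ?_) hq0
    rw [ha]
    split_ifs
    · rw [RCLike.norm_ofReal, abs_of_pos (v_pos n)]
    · exact norm_zero
  have h4 := (ENNReal.ofReal_le_ofReal h2).trans ((hC a).trans (mul_le_mul_right h3 _))
  have h5 : ENNReal.ofReal C ≤ ENNReal.ofReal (max C 0) := ENNReal.ofReal_le_ofReal (le_max_left _ _)
  have h6 := h4.trans (mul_le_mul_left h5 _)
  rw [← ENNReal.ofReal_mul (le_max_right _ _),
    ENNReal.ofReal_le_ofReal_iff (mul_nonneg (le_max_right _ _) (by positivity))] at h6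
  have h7 : h j ^ (1 - 1 / q) * h j ^ (1 / q) = h j := by
    rw [← Real.rpow_add h0, sub_add_cancel, Real.rpow_one]
  have h8 : 0 < h j ^ (1 / q) := by positivity
  have h9 := mul_lt_mul_of_pos_right hlt h8
  rw [h7] at h9
  linarith

theorem not_upper {e : ℕ → E} (he : Orthonormal 𝕜 e) {r : ℝ} (hr : 0 < r) :
    ¬ UpperEmbedding (fnl (𝕜 := 𝕜) e) r := by
  rintro ⟨C, hC⟩
  obtain ⟨j, hj, hlt⟩ := exists_block (max C 0) (1 / r) (by positivity) (fun j => ¬ Even j)
    (fun i => ⟨2 * i + 1, by omega, by rw [Nat.not_even_iff_odd]; exact odd_two_mul_add_one i⟩)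
  have h0 : 0 < h j := zero_lt_one.trans_le (one_le_h j)
  have h1 : ∀ n, fnl (𝕜 := 𝕜) e n (w 𝕜 e j) =
      if blk n = j then ((v n / s j + v n : ℝ) : 𝕜) else 0 := by
    intro n
    change ⟪pert 𝕜 e (cc false) n, w 𝕜 e j⟫_𝕜 = _
    unfold pert
    rw [inner_add_left, inner_smul_left, inner_e_w he, orthonormal_iff_ite.1 (orthonormal_w he)]
    split_ifs with hb
    · have : cc false n = v n := by
        unfold cc cT
        rw [hb, if_pos]
        simpa using hj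
      rw [this, RCLike.conj_ofReal, mul_one, RCLike.ofReal_add]
    · rw [mul_zero, add_zero]
  have hsj := one_le_s j
  have h2 : ∀ n, v n / s j ≤ v n := fun n => div_le_self (v_pos n).le hsj
  have h3 : ∀ n, 0 < v n / s j := fun n => div_pos (v_pos n) (s_pos j)
  have h4 := le_lorentz (a := fun n => fnl (𝕜 := 𝕜) e n (w 𝕜 e j)) (j := j) (r := r)
    (fun n => by
      simp only [h1]
      split_ifs
      · rw [RCLike.norm_ofReal, abs_of_pos (add_pos (h3 n) (v_pos n))]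
        linarith [h2 n, v_le_one n]
      · rw [norm_zero]; norm_num)
    (fun n hn => by
      simp only [h1]
      rw [if_pos hn, RCLike.norm_ofReal, abs_of_pos (add_pos (h3 n) (v_pos n))]
      linarith [h3 n]) hr
  have h5 := h4.trans (hC (w 𝕜 e j))
  rw [(orthonormal_w he).1 j, mul_one] at h5
  have h6 := h5.trans (ENNReal.ofReal_le_ofReal (le_max_left C 0))
  rw [ENNReal.ofReal_le_ofReal_iff (le_max_right _ _)] at h6
  linarith

end basis

/-- Over the real and over the complex field there is a bidemocratic basis of `ℓ₂` such that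
`ℓ_{2,q}` is not embedded into `ℓ₂` for any `q > 1` and `ℓ₂` is not embedded into `ℓ_{2,r}` for any
`r < ∞` by means of the basis. -/
theorem result (𝕜 : Type) [RCLike 𝕜] :
    ∃ (x : ℕ → lp (fun _ : ℕ => 𝕜) 2) (xs : ℕ → StrongDual 𝕜 (lp (fun _ : ℕ => 𝕜) 2)),
      IsBasis x xs ∧ Bidemocratic x xs ∧
      (∀ q : ℝ, 1 < q → ¬ LowerEmbedding (𝕜 := 𝕜) x q) ∧ (∀ r : ℝ, 0 < r → ¬ UpperEmbedding xs r) := by
  let b : HilbertBasis ℕ 𝕜 (lp (fun _ : ℕ => 𝕜) 2) := ⟨LinearIsometryEquiv.refl 𝕜 _⟩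
  have he : Orthonormal 𝕜 b := b.orthonormal
  have hd : Dense ((Submodule.span 𝕜 (Set.range b) : Submodule 𝕜 (lp (fun _ : ℕ => 𝕜) 2)) :
      Set (lp (fun _ : ℕ => 𝕜) 2)) :=
    Submodule.dense_iff_topologicalClosure_eq_top.2 b.dense_span
  exact ⟨pert 𝕜 b (cc true), fnl b, isBasis he hd, bidemocratic he, fun q hq => not_lower he hq,
    fun r hr => not_upper he hr⟩

end Pool.Agent.Results.MP_c77635_an.NoLorentzSqueezing
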